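import Mathlib

/-!
# One step of the construction of saturated elementary extensions

Every structure `V` has an elementary extension `W` in the same universe in which every set of formulas with
parameters from `V` which is finitely satisfiable in `V` is realised.
-/

set_option autoImplicit false

namespace Pool.Agent.helper39.IT

open FirstOrder FirstOrder.Language

universe u

section

variable (L : FirstOrder.Language.{u, u}) (V : Type u)

/-- the new constants: one for each variable of each set of formulas -/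
abbrev Con : Type u := Σ n : ℕ, Set (L.Formula (V ⊕ Fin n)) × ULift.{u} (Fin n)

variable {L V}

/-- the sentence of a formula with parameters from `V` in the variables of `Γ` -/
noncomputable def sent {n : ℕ} (Γ : Set (L.Formula (V ⊕ Fin n))) (φ : L.Formula (V ⊕ Fin n)) :
    L[[V ⊕ Con L V]].Sentence :=
  Formula.equivSentence (φ.relabel (Sum.map id fun i => (⟨n, Γ, ⟨i⟩⟩ : Con L V)))

/-- the sentence of a formula with parameters from `V` -/
noncomputable def sent0 (φ : L.Formula V) : L[[V ⊕ Con L V]].Sentence :=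
  Formula.equivSentence (φ.relabel Sum.inl)

variable [L.Structure V]

/-- `Γ` is finitely satisfiable in `V` -/
def FinSat {n : ℕ} (Γ : Set (L.Formula (V ⊕ Fin n))) : Prop :=
  ∀ s : Finset (L.Formula (V ⊕ Fin n)), (s : Set (L.Formula (V ⊕ Fin n))) ⊆ Γ →
    ∃ a : Fin n → V, ∀ φ ∈ s, φ.Realize (Sum.elim id a)

variable (L V)

/-- the theory of the extension -/
def theo : L[[V ⊕ Con L V]].Theory :=
  {σ | ∃ φ : L.Formula V, φ.Realize id ∧ sent0 φ = σ} ∪
    {σ | ∃ (n : ℕ) (Γ : Set (L.Formula (V ⊕ Fin n))) (φ : L.Formula (V ⊕ Fin n)), FinSat Γ ∧ φ ∈ Γ ∧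
      sent Γ φ = σ}

variable {L V}

theorem realize_sent {M : Type u} [L[[V ⊕ Con L V]].Structure M] [L.Structure M]
    [(L.lhomWithConstants (V ⊕ Con L V)).IsExpansionOn M] {n : ℕ} (Γ : Set (L.Formula (V ⊕ Fin n)))
    (φ : L.Formula (V ⊕ Fin n)) :
    (sent Γ φ).Realize M ↔ φ.Realize (Sum.elim (fun v => ((L.con (Sum.inl v : V ⊕ Con L V) : L[[V ⊕ Con L V]].Constants) : M))
      (fun i => ((L.con (Sum.inr ⟨n, Γ, ⟨i⟩⟩ : V ⊕ Con L V) : L[[V ⊕ Con L V]].Constants) : M))) := by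
  unfold sent
  rw [Formula.realize_equivSentence, Formula.realize_relabel]
  have h : ((fun a => ((L.con a : L[[V ⊕ Con L V]].Constants) : M)) ∘
      (Sum.map id fun i => (⟨n, Γ, ⟨i⟩⟩ : Con L V))) =
      Sum.elim (fun v => ((L.con (Sum.inl v : V ⊕ Con L V) : L[[V ⊕ Con L V]].Constants) : M))
      (fun i => ((L.con (Sum.inr ⟨n, Γ, ⟨i⟩⟩ : V ⊕ Con L V) : L[[V ⊕ Con L V]].Constants) : M)) := by
    funext x
    rcases x with x | x <;> rfl
  rw [h]

theorem realize_sent0 {M : Type u} [L[[V ⊕ Con L V]].Structure M] [L.Structure M]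
    [(L.lhomWithConstants (V ⊕ Con L V)).IsExpansionOn M] (φ : L.Formula V) :
    (sent0 φ).Realize M ↔
      φ.Realize (fun v => ((L.con (Sum.inl v : V ⊕ Con L V) : L[[V ⊕ Con L V]].Constants) : M)) := by
  unfold sent0
  rw [Formula.realize_equivSentence, Formula.realize_relabel]
  rfl

theorem theo_sat [Nonempty V] : (theo L V).IsSatisfiable := by
  classical
  rw [Theory.isSatisfiable_iff_isFinitelySatisfiable]
  intro T0 hT0
  -- the parameters
  have hch : ∀ (n : ℕ) (Γ : Set (L.Formula (V ⊕ Fin n))), ∃ a : Fin n → V, FinSat Γ →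
      ∀ σ ∈ T0, (∃ φ ∈ Γ, sent Γ φ = σ) → ∃ φ, sent Γ φ = σ ∧ φ.Realize (Sum.elim id a) := by
    intro n Γ
    by_cases hΓ : FinSat Γ
    · have hc : ∀ σ : L[[V ⊕ Con L V]].Sentence, ∃ φ : L.Formula (V ⊕ Fin n),
          (∃ φ ∈ Γ, sent Γ φ = σ) → φ ∈ Γ ∧ sent Γ φ = σ := by
        intro σ
        by_cases h : ∃ φ ∈ Γ, sent Γ φ = σ
        · obtain ⟨φ, h1, h2⟩ := h
          exact ⟨φ, fun _ => ⟨h1, h2⟩⟩
        · exact ⟨⊥, fun h' => absurd h' h⟩
      choose ψ hψ using hc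
      obtain ⟨a, ha⟩ := hΓ ((T0.filter fun σ => ∃ φ ∈ Γ, sent Γ φ = σ).image ψ) (by
        intro φ hφ
        rw [Finset.mem_coe, Finset.mem_image] at hφ
        obtain ⟨σ, hσ, rfl⟩ := hφ
        exact (hψ σ (Finset.mem_filter.1 hσ).2).1)
      refine ⟨a, fun _ σ hσ h => ⟨ψ σ, (hψ σ h).2, ha _ ?_⟩⟩
      exact Finset.mem_image.2 ⟨σ, Finset.mem_filter.2 ⟨hσ, h⟩, rfl⟩
    · exact ⟨fun _ => Classical.arbitrary V, fun h => absurd h hΓ⟩
  choose a ha using hch
  -- the model
  let F : V ⊕ Con L V → V := Sum.elim id fun c => a c.1 c.2.1 c.2.2.down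
  letI : (constantsOn (V ⊕ Con L V)).Structure V := constantsOn.structure F
  have hcon : ∀ c : V ⊕ Con L V, ((L.con c : L[[V ⊕ Con L V]].Constants) : V) = F c := fun c => rfl
  suffices hM : V ⊨ (T0 : L[[V ⊕ Con L V]].Theory) from ⟨Theory.ModelType.of _ V⟩
  refine ⟨fun σ hσ => ?_⟩
  rcases hT0 hσ with ⟨φ, h1, h2⟩ | ⟨n, Γ, φ, h1, h2, h3⟩
  · rw [← h2, realize_sent0]
    exact h1
  · obtain ⟨ψ, h4, h5⟩ := ha n Γ h1 σ hσ ⟨φ, h2, h3⟩
    rw [← h4, realize_sent]
    exact h5

/-- **One step.**  Every structure `V` has an elementary extension `W` (in the same universe) in which every set of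
formulas with parameters from `V` which is finitely satisfiable in `V` is realised. -/
theorem exists_step (L : FirstOrder.Language.{u, u}) (V : Type u) [L.Structure V] [Nonempty V] :
    ∃ (W : Type u) (_ : L.Structure W) (f : V ↪ₑ[L] W), ∀ (n : ℕ) (Γ : Set (L.Formula (V ⊕ Fin n))),
      (∀ s : Finset (L.Formula (V ⊕ Fin n)), (s : Set (L.Formula (V ⊕ Fin n))) ⊆ Γ →
        ∃ a : Fin n → V, ∀ φ ∈ s, φ.Realize (Sum.elim id a)) →
      ∃ a : Fin n → W, ∀ φ ∈ Γ, φ.Realize (Sum.elim f a) := by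
  obtain ⟨M⟩ := theo_sat (L := L) (V := V)
  letI : L.Structure M := (L.lhomWithConstants (V ⊕ Con L V)).reduct M
  haveI : (L.lhomWithConstants (V ⊕ Con L V)).IsExpansionOn M :=
    LHom.isExpansionOn_reduct (L.lhomWithConstants (V ⊕ Con L V)) M
  let f : V → M := fun v => ((L.con (Sum.inl v : V ⊕ Con L V) : L[[V ⊕ Con L V]].Constants) : M)
  have h0 : ∀ φ : L.Formula V, φ.Realize id → φ.Realize f := by
    intro φ hφ
    have h1 : M ⊨ sent0 φ := Theory.realize_sentence_of_mem (theo L V) (Or.inl ⟨φ, hφ, rfl⟩)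
    exact (realize_sent0 φ).1 h1
  refine ⟨M, inferInstance, ⟨f, ?_⟩, ?_⟩
  · intro n φ x
    have h1 : ∀ (ψ : L.Formula (Fin n)), ψ.Realize x → ψ.Realize (f ∘ x) := by
      intro ψ hψ
      have h2 := h0 (ψ.relabel x) (by rw [Formula.realize_relabel]; exact hψ)
      rw [Formula.realize_relabel] at h2
      exact h2
    refine ⟨fun h => ?_, h1 φ⟩
    by_contra h2
    exact h1 (∼φ) (Formula.realize_not.2 h2) h
  · intro n Γ hΓ
    refine ⟨fun i => ((L.con (Sum.inr ⟨n, Γ, ⟨i⟩⟩ : V ⊕ Con L V) : L[[V ⊕ Con L V]].Constants) : M),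
      fun φ hφ => ?_⟩
    have h1 : M ⊨ sent Γ φ := Theory.realize_sentence_of_mem (theo L V) (Or.inr ⟨n, Γ, φ, hΓ, hφ, rfl⟩)
    exact (realize_sent Γ φ).1 h1

end

end Pool.Agent.helper39.IT
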