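import Mathlib

/-!
# Elementary chains

A directed system of elementary embeddings has elementary maps into its direct limit; the union of a directed family of
sets with structures and elementary inclusions.
-/

set_option autoImplicit false

namespace Pool.Agent.helper39.IT

open FirstOrder FirstOrder.Language

universe u₁ u₂ v w x

section

variable {L : FirstOrder.Language.{u₁, u₂}} {ι : Type v} [Preorder ι] [IsDirectedOrder ι] [Nonempty ι]

/-- **Elementary chains** (directed systems of elementary embeddings). -/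
theorem exists_limit {G : ι → Type w} [∀ i, L.Structure (G i)] (f : ∀ i j, i ≤ j → G i ↪ₑ[L] G j)
    (h1 : ∀ i x, f i i le_rfl x = x)
    (h2 : ∀ i j k (hij : i ≤ j) (hjk : j ≤ k) x, f j k hjk (f i j hij x) = f i k (hij.trans hjk) x) :
    ∃ (W : Type (max v w)) (_ : L.Structure W) (g : ∀ i, G i ↪ₑ[L] W),
      (∀ i j (h : i ≤ j) x, g j (f i j h x) = g i x) ∧ ∀ z : W, ∃ i x, g i x = z := by
  let f' : ∀ i j, i ≤ j → G i ↪[L] G j := fun i j h => (f i j h).toEmbedding
  have hf' : ∀ i j (h : i ≤ j) x, f' i j h x = f i j h x := fun i j h x => rfl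
  haveI : DirectedSystem G fun i j h => f' i j h :=
    ⟨fun i x => h1 i x, fun k j i hij hjk x => h2 _ _ _ _ _ x⟩
  let g' : ∀ i, G i ↪[L] Language.DirectLimit G f' := fun i => Language.DirectLimit.of L ι G f' i
  have hg' : ∀ i j (h : i ≤ j) x, g' j (f i j h x) = g' i x := fun i j h x => Language.DirectLimit.of_f (hij := h)
  have key : ∀ {α : Type} {n : ℕ} (φ : L.BoundedFormula α n) (i : ι) (v : α → G i) (xs : Fin n → G i),
      φ.Realize (g' i ∘ v) (g' i ∘ xs) ↔ φ.Realize v xs := by
    intro α n φ
    induction φ with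
    | falsum => intro i v xs; exact Iff.rfl
    | equal t₁ t₂ =>
      intro i v xs
      simp only [BoundedFormula.Realize, ← Sum.comp_elim, HomClass.realize_term,
        (g' i).injective.eq_iff]
    | rel R ts =>
      intro i v xs
      simp only [BoundedFormula.Realize, ← Sum.comp_elim, HomClass.realize_term]
      exact StrongHomClass.map_rel (g' i) R _
    | imp _ _ ih1 ih2 =>
      intro i v xs
      simp only [BoundedFormula.realize_imp, ih1, ih2]
    | all φ ih =>
      intro i v xs
      rw [BoundedFormula.realize_all, BoundedFormula.realize_all]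
      constructor
      · intro h a
        have h3 := h (g' i a)
        rw [← Fin.comp_snoc] at h3
        exact (ih i v (Fin.snoc xs a)).1 h3
      · intro h z
        obtain ⟨j, b, rfl⟩ := Language.DirectLimit.exists_of z
        obtain ⟨k, hik, hjk⟩ := exists_ge_ge i j
        have e1 : g' i ∘ v = g' k ∘ (f i k hik ∘ v) := by
          funext a
          exact (hg' i k hik (v a)).symm
        have e2 : g' i ∘ xs = g' k ∘ (f i k hik ∘ xs) := by
          funext a
          exact (hg' i k hik (xs a)).symm
        have e3 : Language.DirectLimit.of L ι G f' j b = g' k (f j k hjk b) := (hg' j k hjk b).symm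
        rw [e1, e2, e3, ← Fin.comp_snoc]
        refine (ih k _ _).2 ?_
        have h3 : (∀' φ).Realize v xs := BoundedFormula.realize_all.2 h
        have h4 := ((f i k hik).map_boundedFormula (∀' φ) v xs).2 h3
        exact BoundedFormula.realize_all.1 h4 _
  refine ⟨Language.DirectLimit G f', inferInstance, fun i => ⟨g' i, ?_⟩, fun i j h x => hg' i j h x, fun z => ?_⟩
  · intro n φ x
    have h3 := key φ i x (default : Fin 0 → G i)
    unfold Formula.Realize
    rw [← h3]
    exact iff_of_eq (congrArg _ (Subsingleton.elim _ _))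
  · obtain ⟨i, x, h⟩ := Language.DirectLimit.exists_of z
    exact ⟨i, x, h⟩

/-- **Unions of elementary chains of sets.** -/
theorem exists_union {X : Type w} (S : ι → Set X) [∀ i, L.Structure (S i)] (hS : Monotone S)
    (hf : ∀ i j (h : i ≤ j), ∃ f : S i ↪ₑ[L] S j, ∀ x, (f x : X) = x) :
    ∃ _ : L.Structure (⋃ i, S i : Set X), ∀ i, ∃ g : S i ↪ₑ[L] (⋃ i, S i : Set X), ∀ x, (g x : X) = x := by
  choose f hf using hf
  obtain ⟨W, i1, g, hg, hW⟩ := exists_limit (L := L) (G := fun i => (S i : Type w)) f
    (fun i x => Subtype.ext (hf i i le_rfl x))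
    (fun i j k hij hjk x => Subtype.ext (by rw [hf, hf, hf]))
  -- the map to the union
  have hval : ∀ z : W, ∃ y : (⋃ i, S i : Set X), ∀ i x, g i x = z → (x : X) = y := by
    intro z
    obtain ⟨i, x, rfl⟩ := hW z
    refine ⟨⟨x, Set.mem_iUnion.2 ⟨i, x.2⟩⟩, fun j y hy => ?_⟩
    obtain ⟨k, hik, hjk⟩ := exists_ge_ge i j
    rw [← hg i k hik, ← hg j k hjk] at hy
    have h3 := (g k).injective hy
    have h4 := congrArg (fun t : S k => (t : X)) h3
    simp only [hf] at h4
    exact h4
  choose e he using hval
  have hinj : Function.Injective e := by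
    intro z z' h
    obtain ⟨i, x, rfl⟩ := hW z
    obtain ⟨j, y, rfl⟩ := hW z'
    have h3 := he _ i x rfl
    have h4 := he _ j y rfl
    rw [h, ← h4] at h3
    obtain ⟨k, hik, hjk⟩ := exists_ge_ge i j
    rw [← hg i k hik, ← hg j k hjk]
    congr 1
    apply Subtype.ext
    rw [hf, hf]
    exact h3
  have hsurj : Function.Surjective e := by
    rintro ⟨y, hy⟩
    obtain ⟨i, hi⟩ := Set.mem_iUnion.1 hy
    exact ⟨g i ⟨y, hi⟩, Subtype.ext (he _ i ⟨y, hi⟩ rfl).symm⟩
  let E : W ≃ (⋃ i, S i : Set X) := Equiv.ofBijective e ⟨hinj, hsurj⟩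
  letI := E.inducedStructure (L := L)
  refine ⟨inferInstance, fun i => ⟨(E.inducedStructureEquiv (L := L)).toElementaryEmbedding.comp (g i),
    fun x => ?_⟩⟩
  exact (he _ i x rfl).symm

end

end Pool.Agent.helper39.IT
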